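import Mathlib

set_option autoImplicit false

universe u

namespace Pool.Agent.X39.KO

open Matrix

/-- a type with the discrete topology -/
def Dsc (X : Type u) : Type u := X

instance (X : Type u) : TopologicalSpace (Dsc X) := ⊥
instance (X : Type u) : DiscreteTopology (Dsc X) := ⟨rfl⟩
instance (X : Type u) [AddCommGroup X] : AddCommGroup (Dsc X) := inferInstanceAs (AddCommGroup X)

/-- the infinite Heisenberg group -/
def HG (B : Type u) [AddCommGroup B] : Type u := Dsc ((ℕ →₀ ℤ) × (ℕ →₀ B)) × B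

section
variable {B : Type u} [AddCommGroup B]

/-- the pairing -/
noncomputable def P (f : ℕ →₀ ℤ) (g : ℕ →₀ B) : B := f.sum (fun i n => n • g i)

lemma P_add_left (f f' : ℕ →₀ ℤ) (g : ℕ →₀ B) : P (f + f') g = P f g + P f' g := by
  unfold P
  exact Finsupp.sum_add_index' (fun i => zero_smul _ _) (fun i a b => add_smul _ _ _)

lemma P_add_right (f : ℕ →₀ ℤ) (g g' : ℕ →₀ B) : P f (g + g') = P f g + P f g' := by
  unfold P
  rw [← Finsupp.sum_add]
  exact Finsupp.sum_congr fun i _ => by rw [Finsupp.add_apply, smul_add]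

lemma P_zero_left (g : ℕ →₀ B) : P 0 g = 0 := by
  unfold P
  exact Finsupp.sum_zero_index

lemma P_zero_right (f : ℕ →₀ ℤ) : P f (0 : ℕ →₀ B) = 0 := by
  unfold P
  simp

lemma P_neg_right (f : ℕ →₀ ℤ) (g : ℕ →₀ B) : P f (-g) = -P f g := by
  have h := P_add_right f g (-g)
  rw [add_neg_cancel, P_zero_right] at h
  exact (neg_eq_of_add_eq_zero_right h.symm).symm

lemma P_neg_left (f : ℕ →₀ ℤ) (g : ℕ →₀ B) : P (-f) g = -P f g := by
  have h := P_add_left f (-f) g
  rw [add_neg_cancel, P_zero_left] at h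
  exact (neg_eq_of_add_eq_zero_right h.symm).symm

lemma P_single (i j : ℕ) (b : B) : P (Finsupp.single i 1) (Finsupp.single j b) = if i = j then b else 0 := by
  unfold P
  rw [Finsupp.sum_single_index (by simp), one_smul, Finsupp.single_apply]
  by_cases h : j = i
  · rw [if_pos h, if_pos h.symm]
  · rw [if_neg h, if_neg (fun h' => h h'.symm)]

/-- constructor -/
def mk (f : ℕ →₀ ℤ) (g : ℕ →₀ B) (b : B) : HG B := ((f, g), b)
def fc (x : HG B) : ℕ →₀ ℤ := (Prod.fst x : (ℕ →₀ ℤ) × (ℕ →₀ B)).1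
def gc (x : HG B) : ℕ →₀ B := (Prod.fst x : (ℕ →₀ ℤ) × (ℕ →₀ B)).2
def bc (x : HG B) : B := Prod.snd x

@[ext] lemma HG.ext {x y : HG B} (h1 : fc x = fc y) (h2 : gc x = gc y) (h3 : bc x = bc y) : x = y :=
  Prod.ext (Prod.ext h1 h2) h3

noncomputable instance : Mul (HG B) :=
  ⟨fun x y => mk (fc x + fc y) (gc x + gc y) (bc x + bc y + P (fc x) (gc y))⟩
noncomputable instance : One (HG B) := ⟨mk 0 0 0⟩
noncomputable instance : Inv (HG B) := ⟨fun x => mk (-fc x) (-gc x) (-bc x + P (fc x) (gc x))⟩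

@[simp] lemma fc_mk (f : ℕ →₀ ℤ) (g : ℕ →₀ B) (b : B) : fc (mk f g b) = f := rfl
@[simp] lemma gc_mk (f : ℕ →₀ ℤ) (g : ℕ →₀ B) (b : B) : gc (mk f g b) = g := rfl
@[simp] lemma bc_mk (f : ℕ →₀ ℤ) (g : ℕ →₀ B) (b : B) : bc (mk f g b) = b := rfl
@[simp] lemma fc_mul (x y : HG B) : fc (x * y) = fc x + fc y := rfl
@[simp] lemma gc_mul (x y : HG B) : gc (x * y) = gc x + gc y := rfl
@[simp] lemma bc_mul (x y : HG B) : bc (x * y) = bc x + bc y + P (fc x) (gc y) := rfl
@[simp] lemma fc_one : fc (1 : HG B) = 0 := rfl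
@[simp] lemma gc_one : gc (1 : HG B) = 0 := rfl
@[simp] lemma bc_one : bc (1 : HG B) = 0 := rfl
@[simp] lemma fc_inv (x : HG B) : fc x⁻¹ = -fc x := rfl
@[simp] lemma gc_inv (x : HG B) : gc x⁻¹ = -gc x := rfl
@[simp] lemma bc_inv (x : HG B) : bc x⁻¹ = -bc x + P (fc x) (gc x) := rfl

noncomputable instance : Group (HG B) where
  mul_assoc x y z := by
    ext1
    · simp [add_assoc]
    · simp [add_assoc]
    · simp only [bc_mul, fc_mul, gc_mul, P_add_left, P_add_right]
      abel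
  one_mul x := by
    ext1
    · simp
    · simp
    · simp [P_zero_left]
  mul_one x := by
    ext1
    · simp
    · simp
    · simp [P_zero_right]
  inv_mul_cancel x := by
    ext1
    · simp
    · simp
    · simp [P_neg_left]

/-- the central subgroup kills: every finite-dimensional representation is trivial on it -/
theorem killed {n : ℕ} (ρ : HG B →* GL (Fin n) ℂ) (b : B) : ρ (mk 0 0 b) = 1 := by
  by_contra hne
  let X : ℕ → Matrix (Fin n) (Fin n) ℂ := fun i => (ρ (mk (Finsupp.single i 1) 0 0)).1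
  let Y : ℕ → Matrix (Fin n) (Fin n) ℂ := fun i => (ρ (mk 0 (Finsupp.single i b) 0)).1
  have hXY : ∀ i j, i ≠ j → X i * Y j = Y j * X i := by
    intro i j hij
    have h : mk (Finsupp.single i 1) 0 0 * mk 0 (Finsupp.single j b) 0 =
        mk 0 (Finsupp.single j b) 0 * mk (Finsupp.single i 1) 0 0 := by
      ext1
      · simp
      · simp
      · simp [P_single, hij, P_zero_left]
    have h2 := congrArg (fun x => (ρ x).1) h
    simpa only [map_mul, Units.val_mul] using h2
  have hXX : ∀ i, X i * Y i ≠ Y i * X i := by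
    intro i h
    apply hne
    have h1 : mk (Finsupp.single i 1) 0 0 * mk 0 (Finsupp.single i b) 0 =
        mk 0 0 b * (mk 0 (Finsupp.single i b) 0 * mk (Finsupp.single i 1) 0 0) := by
      ext1
      · simp
      · simp
      · simp [P_single, P_zero_left]
    have h2 : ρ (mk (Finsupp.single i 1) 0 0) * ρ (mk 0 (Finsupp.single i b) 0) =
        ρ (mk 0 (Finsupp.single i b) 0) * ρ (mk (Finsupp.single i 1) 0 0) := Units.ext h
    rw [← map_mul, h1, map_mul, map_mul] at h2
    exact mul_eq_right.1 h2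
  let C : ℕ → Submodule ℂ (Matrix (Fin n) (Fin n) ℂ) := fun k =>
    { carrier := {M | ∀ i < k, X i * M = M * X i}
      add_mem' := by
        intro M N hM hN i hi
        rw [mul_add, add_mul, hM i hi, hN i hi]
      zero_mem' := by
        intro i _
        rw [mul_zero, zero_mul]
      smul_mem' := by
        intro c M hM i hi
        rw [mul_smul_comm, smul_mul_assoc, hM i hi] }
  have hanti : Antitone C := by
    intro k l hkl M hM i hi
    exact hM i (hi.trans_le hkl)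
  obtain ⟨m, hm⟩ := IsArtinian.monotone_stabilizes
    (⟨fun k => OrderDual.toDual (C k), fun k l hkl => hanti hkl⟩ : ℕ →o (Submodule ℂ (Matrix (Fin n) (Fin n) ℂ))ᵒᵈ)
  have h1 : C m = C (m + 1) := hm (m + 1) (Nat.le_succ m)
  have h2 : Y m ∈ C m := by
    intro i hi
    exact hXY i m hi.ne
  rw [h1] at h2
  exact hXX m (h2 m (Nat.lt_succ_self m))

/-- characters of a discrete abelian group separate points -/
theorem exists_char (Q : Type u) [AddCommGroup Q] (q : Q) (hq : q ≠ 0) :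
    ∃ χ : Multiplicative Q →* ℂˣ, χ (Multiplicative.ofAdd q) ≠ 1 := by
  obtain ⟨c, hc⟩ := CharacterModule.exists_character_apply_ne_zero_of_ne_zero hq
  let r : AddCircle (1 : ℚ) →+ AddCircle (1 : ℝ) :=
    QuotientAddGroup.map _ _ (Rat.castHom ℝ).toAddMonoidHom (by
      intro x hx
      rw [AddSubgroup.mem_zmultiples_iff] at hx
      obtain ⟨k, hk⟩ := hx
      rw [AddSubgroup.mem_comap, AddSubgroup.mem_zmultiples_iff]
      refine ⟨k, ?_⟩
      rw [← hk]
      simp)
  have hr : ∀ y : AddCircle (1 : ℚ), r y = 0 → y = 0 := by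
    intro y hy
    obtain ⟨x, rfl⟩ := QuotientAddGroup.mk_surjective y
    have h1 : ((x : ℝ) : AddCircle (1 : ℝ)) = 0 := hy
    rw [AddCircle.coe_eq_zero_iff] at h1
    obtain ⟨k, hk⟩ := h1
    have h2 : (x : ℚ) = k := by
      have h3 : ((k : ℤ) : ℝ) = (x : ℝ) := by simpa using hk
      exact_mod_cast h3.symm
    change ((x : ℚ) : AddCircle (1 : ℚ)) = 0
    rw [AddCircle.coe_eq_zero_iff]
    exact ⟨k, by rw [h2]; simp⟩
  let χ : Multiplicative Q →* Circle :=
    { toFun := fun x => AddCircle.toCircle (r (c x.toAdd))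
      map_one' := by
        change AddCircle.toCircle (r (c 0)) = 1
        rw [map_zero, map_zero, AddCircle.toCircle_zero]
      map_mul' := fun x y => by
        change AddCircle.toCircle (r (c (x.toAdd + y.toAdd))) = _
        rw [map_add, map_add, AddCircle.toCircle_add] }
  refine ⟨(Circle.toUnits).comp χ, ?_⟩
  intro h
  apply hc
  apply hr
  have h1 : χ (Multiplicative.ofAdd q) = 1 := by
    have h2 := congrArg (fun z : ℂˣ => (z : ℂ)) h
    apply Circle.ext
    exact h2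
  have h2 : AddCircle.toCircle (r (c q)) = AddCircle.toCircle (0 : AddCircle (1 : ℝ)) := by
    rw [AddCircle.toCircle_zero]
    exact h1
  exact AddCircle.injective_toCircle one_ne_zero h2

end

section top
variable {B : Type u} [AddCommGroup B] [TopologicalSpace B]

instance : TopologicalSpace (HG B) := inferInstanceAs (TopologicalSpace (Dsc ((ℕ →₀ ℤ) × (ℕ →₀ B)) × B))

instance [T2Space B] : T2Space (HG B) := inferInstanceAs (T2Space (Dsc ((ℕ →₀ ℤ) × (ℕ →₀ B)) × B))

instance [LocallyCompactSpace B] : LocallyCompactSpace (HG B) :=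
  inferInstanceAs (LocallyCompactSpace (Dsc ((ℕ →₀ ℤ) × (ℕ →₀ B)) × B))

lemma cont_fst : Continuous (fun x : HG B => (Prod.fst x : Dsc ((ℕ →₀ ℤ) × (ℕ →₀ B)))) := continuous_fst

lemma cont_bc : Continuous (fun x : HG B => bc x) := continuous_snd

lemma cont_mk {Z : Type*} [TopologicalSpace Z] {a : Z → Dsc ((ℕ →₀ ℤ) × (ℕ →₀ B))} {b : Z → B}
    (ha : Continuous a) (hb : Continuous b) : Continuous (fun z => ((a z, b z) : HG B)) :=
  Continuous.prodMk ha hb

instance [IsTopologicalAddGroup B] : IsTopologicalGroup (HG B) where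
  continuous_mul := by
    have h1 : Continuous (fun x : HG B × HG B =>
        ((Prod.fst x.1 : Dsc ((ℕ →₀ ℤ) × (ℕ →₀ B))), (Prod.fst x.2 : Dsc ((ℕ →₀ ℤ) × (ℕ →₀ B))))) :=
      (cont_fst.comp continuous_fst).prodMk (cont_fst.comp continuous_snd)
    refine cont_mk ?_ ?_
    · exact (continuous_of_discreteTopology (f := fun q : Dsc ((ℕ →₀ ℤ) × (ℕ →₀ B)) ×
        Dsc ((ℕ →₀ ℤ) × (ℕ →₀ B)) => (q.1 + q.2 : Dsc ((ℕ →₀ ℤ) × (ℕ →₀ B))))).comp h1
    · refine ((cont_bc.comp continuous_fst).add (cont_bc.comp continuous_snd)).add ?_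
      exact (continuous_of_discreteTopology (f := fun q : Dsc ((ℕ →₀ ℤ) × (ℕ →₀ B)) ×
        Dsc ((ℕ →₀ ℤ) × (ℕ →₀ B)) => P (q.1 : (ℕ →₀ ℤ) × (ℕ →₀ B)).1 (q.2 : (ℕ →₀ ℤ) × (ℕ →₀ B)).2)).comp h1
  continuous_inv := by
    refine cont_mk ?_ ?_
    · exact (continuous_of_discreteTopology (f := fun q : Dsc ((ℕ →₀ ℤ) × (ℕ →₀ B)) =>
        (-q : Dsc ((ℕ →₀ ℤ) × (ℕ →₀ B))))).comp cont_fst
    · refine cont_bc.neg.add ?_
      exact (continuous_of_discreteTopology (f := fun q : Dsc ((ℕ →₀ ℤ) × (ℕ →₀ B)) =>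
        P (q : (ℕ →₀ ℤ) × (ℕ →₀ B)).1 (q : (ℕ →₀ ℤ) × (ℕ →₀ B)).2)).comp cont_fst

/-- points outside the central subgroup are separated by continuous representations -/
theorem separated (x : HG B) (hx : ¬ (fc x = 0 ∧ gc x = 0)) :
    ∃ ρ : HG B →* GL (Fin 1) ℂ, Continuous ρ ∧ ρ x ≠ 1 := by
  have hq : ((fc x, gc x) : (ℕ →₀ ℤ) × (ℕ →₀ B)) ≠ 0 := by
    intro h
    apply hx
    exact ⟨congrArg Prod.fst h, congrArg Prod.snd h⟩
  obtain ⟨χ, hχ⟩ := exists_char _ _ hq
  let π : HG B →* Multiplicative ((ℕ →₀ ℤ) × (ℕ →₀ B)) :=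
    { toFun := fun y => Multiplicative.ofAdd (fc y, gc y)
      map_one' := rfl
      map_mul' := fun y z => rfl }
  let σ : ℂˣ →* GL (Fin 1) ℂ := Units.map (Matrix.scalar (Fin 1)).toMonoidHom
  refine ⟨σ.comp (χ.comp π), ?_, ?_⟩
  · exact (continuous_of_discreteTopology (f := fun q : Dsc ((ℕ →₀ ℤ) × (ℕ →₀ B)) =>
      σ (χ (Multiplicative.ofAdd (q : (ℕ →₀ ℤ) × (ℕ →₀ B)))))).comp cont_fst
  · intro h
    apply hχ
    have h1 : σ (χ (Multiplicative.ofAdd (fc x, gc x))) = 1 := h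
    have h2 := congrArg (fun M : GL (Fin 1) ℂ => (M : Matrix (Fin 1) (Fin 1) ℂ) 0 0) h1
    apply Units.ext
    simpa [σ] using h2

theorem mem_iff (x : HG B) (K : Subgroup (HG B))
    (hK : ∀ y, y ∈ K ↔ ∀ n : ℕ, 1 ≤ n → ∀ ρ : HG B →* GL (Fin n) ℂ, Continuous ρ → ρ y = 1) :
    x ∈ K ↔ fc x = 0 ∧ gc x = 0 := by
  constructor
  · intro h
    by_contra hx
    obtain ⟨ρ, hρ, hρx⟩ := separated x hx
    exact hρx ((hK x).1 h 1 le_rfl ρ hρ)
  · rintro ⟨h1, h2⟩
    rw [hK]
    intro n _ ρ _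
    have h3 : x = mk 0 0 (bc x) := by
      ext1
      · exact h1
      · exact h2
      · rfl
    rw [h3]
    exact killed ρ _

/-- the topological isomorphism of the common kernel with `B` -/
noncomputable def iso (K : Subgroup (HG B))
    (hK : ∀ y, y ∈ K ↔ ∀ n : ℕ, 1 ≤ n → ∀ ρ : HG B →* GL (Fin n) ℂ, Continuous ρ → ρ y = 1) :
    K ≃ₜ* Multiplicative B where
  toFun x := Multiplicative.ofAdd (bc x.1)
  invFun b := ⟨mk 0 0 b.toAdd, (mem_iff _ K hK).2 ⟨rfl, rfl⟩⟩
  left_inv x := by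
    have h := (mem_iff _ K hK).1 x.2
    apply Subtype.ext
    ext1
    · exact h.1.symm
    · exact h.2.symm
    · rfl
  right_inv b := rfl
  map_mul' x y := by
    have h := (mem_iff _ K hK).1 x.2
    change Multiplicative.ofAdd (bc x.1 + bc y.1 + P (fc x.1) (gc y.1)) = _
    rw [h.1, P_zero_left, add_zero, ofAdd_add]
  continuous_toFun := continuous_ofAdd.comp (cont_bc.comp continuous_subtype_val)
  continuous_invFun := by
    refine Continuous.subtype_mk ?_ _
    exact cont_mk continuous_const continuous_toAdd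

end top

end Pool.Agent.X39.KO
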